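import Pool.Agent.Helper99.FS.Defs2

/-!
# Project FS (MP_120218_co): sets with few sums, from one polynomial to `k` polynomials
-/

set_option autoImplicit false

open Finset Polynomial

namespace Pool.Agent.Helper36.FS

open Pool.Agent.Helper99.FS (FSZ FSK)
open Pool.Agent.Helper99.TR (valProd polyProd)
open Pool.Agent.Helper99.RT (rvals smm polyRec)

/-- sets with few sums: from one polynomial to `k` polynomials -/
theorem fsk (h : FSZ) : FSK := by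
  intro k d hk ε hε
  rcases Nat.eq_zero_or_pos d with hd | hd
  · subst hd
    refine ⟨1, one_pos, ?_⟩
    intro A hA _ F hF
    have h1 := hF ⟨0, hk⟩
    omega
  set ε₁ : ℝ := min ε 1 with hε₁
  have hε₁0 : 0 < ε₁ := lt_min hε one_pos
  have hε₁1 : ε₁ ≤ 1 := min_le_right _ _
  have hε₁ε : ε₁ ≤ ε := min_le_left _ _
  set δ : ℝ := ε₁ / ((k : ℝ) + 1) ^ 2 with hδ
  have hk0 : (0 : ℝ) ≤ k := Nat.cast_nonneg k
  have hk1 : (1 : ℝ) ≤ ((k : ℝ) + 1) ^ 2 := by nlinarith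
  have hδ0 : 0 < δ := by positivity
  have hδε : δ * ((k : ℝ) + 1) ^ 2 = ε₁ := by
    rw [hδ]
    field_simp
  have hδ1 : δ ≤ 1 := by
    have : δ * 1 ≤ δ * ((k : ℝ) + 1) ^ 2 := mul_le_mul_of_nonneg_left hk1 hδ0.le
    linarith
  obtain ⟨c₀, hc₀, hm⟩ := h δ d hδ0 hd
  set c₁ : ℝ := min c₀ 1 with hc₁
  have hc₁0 : 0 < c₁ := lt_min hc₀ one_pos
  have hc₁1 : c₁ ≤ 1 := min_le_right _ _
  have hc₁c₀ : c₁ ≤ c₀ := min_le_left _ _
  have hck0 : 0 < c₁ ^ k := by positivity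
  have hcc : min c₁ (c₁ ^ k) ≤ c₀ := (min_le_left _ _).trans hc₁c₀
  have hcpos : 0 < min c₁ (c₁ ^ k) := lt_min hc₁0 hck0
  refine ⟨min c₁ (c₁ ^ k), hcpos, ?_⟩
  intro A hA hAA F hF B hB
  have hAc : 1 ≤ A.card := hA.card_pos
  have hN1 : (1 : ℝ) ≤ A.card := by exact_mod_cast hAc
  have hB1 : (1 : ℝ) ≤ B.card := by exact_mod_cast hB.card_pos
  have hAA' : ((image₂ (fun a b => a + b) A A).card : ℝ) ≤ (A.card : ℝ) ^ (1 + c₀) :=
    hAA.trans (Real.rpow_le_rpow_of_exponent_le hN1 (by linarith))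
  have hG := hm A hA hAA'
  -- the exponents
  have hlast : min c₁ (c₁ ^ k) * ((A.card : ℝ) ^ ((k : ℝ) - ε) * (B.card : ℝ) ^ (1 - ε)) ≤
      c₁ ^ k * ((A.card : ℝ) ^ ((k : ℝ) - δ * (k : ℝ) ^ 2) *
        (B.card : ℝ) ^ (1 - (k : ℝ) * δ)) := by
    apply mul_le_mul (min_le_right _ _) _ (by positivity) hck0.le
    apply mul_le_mul _ _ (by positivity) (by positivity)
    · apply Real.rpow_le_rpow_of_exponent_le hN1
      have : δ * (k : ℝ) ^ 2 ≤ δ * ((k : ℝ) + 1) ^ 2 :=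
        mul_le_mul_of_nonneg_left (by nlinarith) hδ0.le
      linarith
    · apply Real.rpow_le_rpow_of_exponent_le hB1
      have : δ * (k : ℝ) ≤ δ * ((k : ℝ) + 1) ^ 2 :=
        mul_le_mul_of_nonneg_left (by nlinarith) hδ0.le
      linarith
  constructor
  · intro h0
    have h1 := Pool.Agent.Helper99.TR.iter hA hc₁0 hc₁1 hδ0.le
      (fun G => 1 ≤ G.natDegree ∧ G.natDegree ≤ d ∧ ∃ a ∈ A, G.eval a ≠ 0)
      (fun G hG' B' hB' h0' => by
        refine le_trans ?_ ((hG G hG'.1 hG'.2.1 hG'.2.2 B' hB').1 h0')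
        exact mul_le_mul_of_nonneg_right hc₁c₀ (by positivity)) hδ1 k F hF B hB h0
    exact hlast.trans h1
  · have h1 := Pool.Agent.Helper99.RT.iterA hA hc₁0 hc₁1 hδ0.le
      (fun G => 1 ≤ G.natDegree ∧ G.natDegree ≤ d ∧ ∃ a ∈ A, G.eval a ≠ 0)
      (fun G hG' B' hB' => by
        refine le_trans ?_ ((hG G hG'.1 hG'.2.1 hG'.2.2 B' hB').2)
        exact mul_le_mul_of_nonneg_right hc₁c₀ (by positivity)) hδ1 k F hF B hB
    exact hlast.trans h1

end Pool.Agent.Helper36.FS
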